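import Mathlib
import Pool.Agent.Helper202.Sigma

set_option autoImplicit false

namespace Pool.Agent.Helper202.Cert

open Complex Filter Topology Metric Set Pool.Agent.Helper202.Sigma

/-- the analytic certificate -/
noncomputable def hh (t c : ℝ) (z : ℂ) : ℂ := (1 - 2 * c * z + z ^ 2) * (1 + z) * sg t z

noncomputable def RR (t c θ : ℝ) : ℝ :=
  8 * (Real.cos θ - c) * |Real.cos (θ / 2)| * Real.sqrt (t - Real.sin (θ / 2) ^ 2)

noncomputable def JJ (t c θ : ℝ) : ℝ :=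
  -8 * (Real.cos θ - c) * Real.cos (θ / 2) * Real.sqrt (Real.sin (θ / 2) ^ 2 - t)

lemma sin_half_pos {t θ : ℝ} (h0 : 0 < t) (hθ0 : 0 ≤ θ) (hθ1 : θ ≤ 2 * Real.pi)
    (hv : t ≤ Real.sin (θ / 2) ^ 2) : 0 < Real.sin (θ / 2) := by
  have h1 : 0 ≤ Real.sin (θ / 2) := Real.sin_nonneg_of_nonneg_of_le_pi (by linarith) (by linarith)
  rcases h1.lt_or_eq with h | h
  · exact h
  · rw [← h] at hv; norm_num at hv; linarith

lemma hh_bd {t : ℝ} (c : ℝ) (h0 : 0 < t) (h1 : t < 1) {θ : ℝ} (hθ0 : 0 ≤ θ) (hθ1 : θ ≤ 2 * Real.pi) :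
    hh t c (Complex.exp (I * θ)) * Complex.exp (-(2 * (I * θ))) = (RR t c θ : ℂ) + (JJ t c θ : ℂ) * I := by
  unfold hh
  rw [bd_quad c θ, bd_one_add θ]
  have e1 : Complex.exp (I * θ) = Complex.exp (I * (θ / 2 : ℝ)) * Complex.exp (I * (θ / 2 : ℝ)) := by
    rw [← Complex.exp_add]; congr 1; push_cast; ring
  have e2 : Complex.exp (I * (θ / 2 : ℝ)) * Complex.exp (-(I * (θ / 2 : ℝ))) = 1 := by
    rw [← Complex.exp_add]; simp
  have e4 : Complex.exp (-(2 * (I * θ))) = Complex.exp (-(I * (θ / 2 : ℝ))) ^ 4 := by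
    rw [← Complex.exp_nat_mul]; congr 1; push_cast; ring
  set E := Complex.exp (I * (θ / 2 : ℝ)) with hE
  set E' := Complex.exp (-(I * (θ / 2 : ℝ))) with hE'
  have e5 : E ^ 4 * E' ^ 4 = 1 := by rw [← mul_pow, e2, one_pow]
  have hE2 : Complex.exp (I * ((θ : ℂ) / 2)) = E := by rw [hE]; push_cast; rfl
  rcases le_or_gt (Real.sin (θ / 2) ^ 2) t with hv | hv
  · have hJ : JJ t c θ = 0 := by
      unfold JJ
      rw [Real.sqrt_eq_zero_of_nonpos (by linarith)]; ring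
    have hcos : Real.cos (θ / 2) ≠ 0 := by
      intro h
      have := Real.sin_sq_add_cos_sq (θ / 2)
      rw [h] at this
      nlinarith
    rw [hJ]
    rcases lt_or_gt_of_ne hcos with hc | hc
    · rw [sg_bd_near' h0 h1 hv hc, e4, e1]
      unfold RR
      rw [abs_of_neg hc]
      push_cast
      try rw [hE2]
      linear_combination (-(8 : ℂ) * (Complex.cos θ - c) * Complex.cos (θ / 2) *
        (Real.sqrt (t - Real.sin (θ / 2) ^ 2))) * e5
    · rw [sg_bd_near h0 h1 hv hc, e4, e1]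
      unfold RR
      rw [abs_of_pos hc]
      push_cast
      try rw [hE2]
      linear_combination ((8 : ℂ) * (Complex.cos θ - c) * Complex.cos (θ / 2) *
        (Real.sqrt (t - Real.sin (θ / 2) ^ 2))) * e5
  · have hR : RR t c θ = 0 := by
      unfold RR
      rw [Real.sqrt_eq_zero_of_nonpos (by linarith)]; ring
    have hs := sin_half_pos h0 hθ0 hθ1 hv.le
    rw [hR, sg_bd_far h0 h1 hv.le hs, e4, e1]
    unfold JJ
    push_cast
    try rw [hE2]
    linear_combination (-(8 : ℂ) * I * (Complex.cos θ - c) * Complex.cos (θ / 2) *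
        (Real.sqrt (Real.sin (θ / 2) ^ 2 - t))) * e5

lemma hh_dcc (t c : ℝ) : DiffContOnCl ℂ (hh t c) (ball 0 1) := by
  unfold hh
  have h1 : DiffContOnCl ℂ (fun z : ℂ => (1 - 2 * c * z + z ^ 2) * (1 + z)) (ball 0 1) := by
    apply Differentiable.diffContOnCl
    fun_prop
  exact h1.smul (sg_dcc t)

lemma cauchy2 {F : ℂ → ℂ} (hF : DiffContOnCl ℂ F (ball 0 1)) :
    ∫ θ in (0 : ℝ)..2 * Real.pi, F (Complex.exp (I * θ)) * Complex.exp (-(2 * (I * θ))) =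
      2 * Real.pi * (deriv (deriv F) 0 / 2) := by
  have h := hF.circleIntegral_one_div_sub_center_pow_smul (by norm_num : (0 : ℝ) < 1) 2
  rw [circleIntegral] at h
  have h2 : ∀ θ : ℝ, deriv (circleMap 0 1) θ • ((1 / (circleMap 0 1 θ - 0) ^ (2 + 1)) • F (circleMap 0 1 θ)) =
      I * (F (Complex.exp (I * θ)) * Complex.exp (-(2 * (I * θ)))) := by
    intro θ
    rw [deriv_circleMap]
    simp only [circleMap, zero_add, Complex.ofReal_one, one_mul, sub_zero, smul_eq_mul]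
    rw [mul_comm (θ : ℂ) I]
    have e2 : Complex.exp (I * θ) * Complex.exp (-(I * θ)) = 1 := by
      rw [← Complex.exp_add]; simp
    have e3 : Complex.exp (-(2 * (I * θ))) = Complex.exp (-(I * θ)) ^ 2 := by
      rw [← Complex.exp_nat_mul]; congr 1; push_cast; ring
    have e4 := Complex.exp_ne_zero (I * θ)
    rw [e3]
    field_simp
    have e5 : Complex.exp (I * θ) ^ 2 * Complex.exp (-(I * θ)) ^ 2 = 1 := by
      rw [← mul_pow, e2, one_pow]
    linear_combination (-F (Complex.exp (I * θ)) * Complex.exp (I * θ)) * e5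
  simp_rw [h2] at h
  rw [intervalIntegral.integral_const_mul] at h
  have h3 : iteratedDeriv 2 F 0 = deriv (deriv F) 0 := by
    rw [iteratedDeriv_succ, iteratedDeriv_one]
  rw [h3] at h
  have hI : I ≠ 0 := Complex.I_ne_zero
  apply mul_left_cancel₀ hI
  rw [h]
  simp [Nat.factorial]
  ring

/-- derivative of `sg` near the origin -/
lemma sg_hasDeriv {t : ℝ} (h0 : 0 ≤ t) (h1 : t ≤ 1) {z : ℂ} (hz : ‖z‖ < 1) (hne : sg t z ≠ 0) :
    HasDerivAt (sg t) ((z - (1 - 2 * t)) / sg t z) z := by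
  have hd := (sg_diffAt t hz).hasDerivAt
  have h2 : HasDerivAt (fun z => sg t z ^ 2) (2 * sg t z * deriv (sg t) z) z := by
    simpa using! hd.pow 2
  have h3 : HasDerivAt (fun z : ℂ => 1 - 2 * (1 - 2 * (t : ℂ)) * z + z ^ 2) (-(2 * (1 - 2 * t)) + 2 * z) z := by
    have e1 := ((hasDerivAt_id z).const_mul (2 * (1 - 2 * (t : ℂ)))).const_sub 1
    have e2 := (hasDerivAt_pow 2 z)
    have e3 := e1.add e2
    simpa using! e3
  have h4 : (fun z => sg t z ^ 2) = fun z : ℂ => 1 - 2 * (1 - 2 * (t : ℂ)) * z + z ^ 2 := by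
    funext z; exact sg_sq h0 h1 z
  rw [h4] at h2
  have h5 := h2.unique h3
  have h6 : deriv (sg t) z = (z - (1 - 2 * t)) / sg t z := by
    rw [eq_div_iff hne]
    linear_combination h5 / 2
  rw [← h6]
  exact hd

lemma sg_ne_nhds (t : ℝ) : ∀ᶠ z in 𝓝 (0 : ℂ), sg t z ≠ 0 ∧ ‖z‖ < 1 := by
  have h1 : ContinuousAt (sg t) 0 := (sg_diffAt t (by simp)).continuousAt
  have h2 : sg t 0 ≠ 0 := by rw [sg_zero]; norm_num
  have h3 := h1.eventually_ne h2
  have h4 : ∀ᶠ z in 𝓝 (0 : ℂ), ‖z‖ < 1 := by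
    have := isOpen_ball.mem_nhds (show (0 : ℂ) ∈ ball (0 : ℂ) 1 by simp)
    filter_upwards [this] with z hz
    simpa using hz
  exact h3.and h4

lemma sg_deriv_eventually {t : ℝ} (h0 : 0 ≤ t) (h1 : t ≤ 1) :
    deriv (sg t) =ᶠ[𝓝 0] fun z => (z - (1 - 2 * t)) / sg t z := by
  filter_upwards [sg_ne_nhds t] with z hz
  exact (sg_hasDeriv h0 h1 hz.2 hz.1).deriv

lemma sg_hasDeriv0 {t : ℝ} (h0 : 0 ≤ t) (h1 : t ≤ 1) : HasDerivAt (sg t) (-(1 - 2 * t)) 0 := by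
  have := sg_hasDeriv h0 h1 (z := 0) (by simp) (by rw [sg_zero]; norm_num)
  rw [sg_zero] at this
  simpa using this

lemma sg_hasDeriv2 {t : ℝ} (h0 : 0 ≤ t) (h1 : t ≤ 1) :
    HasDerivAt (deriv (sg t)) (1 - (1 - 2 * t) ^ 2) 0 := by
  have e1 : HasDerivAt (fun z : ℂ => z - (1 - 2 * t)) 1 0 := (hasDerivAt_id 0).sub_const _
  have e2 := e1.div (sg_hasDeriv0 h0 h1) (by rw [sg_zero]; norm_num)
  rw [sg_zero] at e2
  have e3 := e2.congr_of_eventuallyEq (sg_deriv_eventually h0 h1)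
  convert! e3 using 1
  ring

/-- product rule for the second derivative at the origin -/
lemma deriv2_mul {F G : ℂ → ℂ} (hF : ∀ᶠ z in 𝓝 (0 : ℂ), DifferentiableAt ℂ F z)
    (hG : ∀ᶠ z in 𝓝 (0 : ℂ), DifferentiableAt ℂ G z) {F1 F2 G1 G2 : ℂ}
    (hF1 : HasDerivAt F F1 0) (hF2 : HasDerivAt (deriv F) F2 0)
    (hG1 : HasDerivAt G G1 0) (hG2 : HasDerivAt (deriv G) G2 0) :
    HasDerivAt (deriv (fun z => F z * G z)) (F2 * G 0 + 2 * F1 * G1 + F 0 * G2) 0 := by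
  have e : deriv (fun z => F z * G z) =ᶠ[𝓝 0] fun z => deriv F z * G z + F z * deriv G z := by
    filter_upwards [hF, hG] with z h1 h2
    exact deriv_fun_mul h1 h2
  have h := (hF2.mul hG1).add (hF1.mul hG2)
  have h' := h.congr_of_eventuallyEq e
  convert! h' using 1
  rw [hF1.deriv, hG1.deriv]
  ring

lemma poly_hasDeriv (c : ℝ) (z : ℂ) : HasDerivAt (fun z : ℂ => (1 - 2 * c * z + z ^ 2) * (1 + z))
    ((1 - 2 * c) + 2 * (1 - 2 * c) * z + 3 * z ^ 2) z := by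
  have e1 : HasDerivAt (fun z : ℂ => (1 - 2 * (c : ℂ) * z + z ^ 2)) (-(2 * c) + 2 * z) z := by
    have a1 := ((hasDerivAt_id z).const_mul (2 * (c : ℂ))).const_sub 1
    have a3 := a1.add (hasDerivAt_pow 2 z)
    simpa using! a3
  have e2 : HasDerivAt (fun z : ℂ => (1 + z)) 1 z := (hasDerivAt_id z).const_add 1
  have e3 := e1.mul e2
  convert! e3 using 1
  ring

lemma poly_hasDeriv2 (c : ℝ) : HasDerivAt (deriv (fun z : ℂ => (1 - 2 * (c : ℂ) * z + z ^ 2) * (1 + z)))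
    (2 * (1 - 2 * (c : ℂ))) 0 := by
  have h : deriv (fun z : ℂ => (1 - 2 * (c : ℂ) * z + z ^ 2) * (1 + z)) = fun z : ℂ =>
      ((1 - 2 * (c : ℂ)) + 2 * (1 - 2 * (c : ℂ)) * z + 3 * z ^ 2) := by
    funext z; exact (poly_hasDeriv c z).deriv
  rw [h]
  have a1 := ((hasDerivAt_id (0 : ℂ)).const_mul (2 * (1 - 2 * (c : ℂ)))).const_add (1 - 2 * (c : ℂ))
  have a2 := (hasDerivAt_pow 2 (0 : ℂ)).const_mul (3 : ℂ)
  have a3 := a1.add a2
  convert! a3 using 1
  simp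

lemma hh_hasDeriv0 {t : ℝ} (c : ℝ) (h0 : 0 ≤ t) (h1 : t ≤ 1) :
    HasDerivAt (hh t c) (2 * (t - c)) 0 := by
  have h := (poly_hasDeriv c 0).mul (sg_hasDeriv0 h0 h1)
  rw [sg_zero] at h
  unfold hh
  convert! h using 1
  simp
  ring

lemma hh_hasDeriv2 {t : ℝ} (c : ℝ) (h0 : 0 ≤ t) (h1 : t ≤ 1) :
    HasDerivAt (deriv (hh t c)) (2 * (2 * t * (2 - 2 * c - t))) 0 := by
  have h := deriv2_mul (F := fun z : ℂ => (1 - 2 * (c : ℂ) * z + z ^ 2) * (1 + z)) (G := sg t)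
    (Eventually.of_forall fun z => (poly_hasDeriv c z).differentiableAt)
    ((sg_ne_nhds t).mono fun z hz => sg_diffAt t hz.2)
    (poly_hasDeriv c 0) (poly_hasDeriv2 c) (sg_hasDeriv0 h0 h1) (sg_hasDeriv2 h0 h1)
  unfold hh
  convert! h using 1
  rw [sg_zero]
  simp
  ring

lemma hh_zero (t c : ℝ) : hh t c 0 = 1 := by
  unfold hh; rw [sg_zero]; simp

end Pool.Agent.Helper202.Cert
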