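import Mathlib
import Pool.Agent.Helper202.Cert2

set_option autoImplicit false

namespace Pool.Agent.Helper202.Cert

open Complex Filter Topology Metric Set Pool.Agent.Helper202.Sigma MeasureTheory

/-- integrand of `Gam` -/
noncomputable def gi (t c v : ℝ) : ℝ := (1 - c - 2 * v ^ 2) * Real.sqrt (v ^ 2 - t)

noncomputable def Gam (t c y : ℝ) : ℝ := ∫ v in (0 : ℝ)..y, gi t c v

lemma gi_cont (t c : ℝ) : Continuous (gi t c) := by
  unfold gi
  fun_prop

lemma gi_int (t c a b : ℝ) : IntervalIntegrable (gi t c) volume a b := (gi_cont t c).intervalIntegrable a b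

lemma Gam_hasDeriv (t c y : ℝ) : HasDerivAt (Gam t c) (gi t c y) y := by
  unfold Gam
  exact intervalIntegral.integral_hasDerivAt_right (gi_int t c 0 y)
    ((gi_cont t c).stronglyMeasurableAtFilter _ _) (gi_cont t c).continuousAt

lemma Gam_zero (t c : ℝ) : Gam t c 0 = 0 := by unfold Gam; simp

lemma Gam_nonneg {t c y : ℝ} (h1 : 0 ≤ Gam t c 1) (hy0 : 0 ≤ y) (hy1 : y ≤ 1) : 0 ≤ Gam t c y := by
  rcases le_or_gt (2 * y ^ 2) (1 - c) with h | h
  · unfold Gam
    apply intervalIntegral.integral_nonneg hy0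
    intro v hv
    unfold gi
    apply mul_nonneg _ (Real.sqrt_nonneg _)
    nlinarith [hv.1, hv.2]
  · have h2 : Gam t c y + ∫ v in y..(1 : ℝ), gi t c v = Gam t c 1 := by
      unfold Gam
      exact intervalIntegral.integral_add_adjacent_intervals (gi_int t c 0 y) (gi_int t c y 1)
    have h3 : 0 ≤ ∫ v in y..(1 : ℝ), -gi t c v := by
      apply intervalIntegral.integral_nonneg hy1
      intro v hv
      unfold gi
      rw [← neg_mul]
      apply mul_nonneg _ (Real.sqrt_nonneg _)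
      nlinarith [hv.1, hv.2]
    rw [intervalIntegral.integral_neg] at h3
    linarith

/-- primitive -/
noncomputable def PP (t c v : ℝ) : ℝ :=
  (1 - c) * (v * Real.sqrt (v ^ 2 - t) - t * Real.log (v + Real.sqrt (v ^ 2 - t))) / 2 -
    (v * (2 * v ^ 2 - t) * Real.sqrt (v ^ 2 - t) - t ^ 2 * Real.log (v + Real.sqrt (v ^ 2 - t))) / 4

lemma PP_hasDeriv {t : ℝ} (c : ℝ) {v : ℝ} (hv0 : 0 < v) (hv : t < v ^ 2) :
    HasDerivAt (PP t c) (gi t c v) v := by
  have hr0 : 0 < v ^ 2 - t := by linarith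
  set r := Real.sqrt (v ^ 2 - t) with hr
  have hrp : 0 < r := Real.sqrt_pos.mpr hr0
  have hr2 : r ^ 2 = v ^ 2 - t := Real.sq_sqrt hr0.le
  have a1 : HasDerivAt (fun v : ℝ => v ^ 2 - t) (2 * v) v := by
    simpa using (hasDerivAt_pow 2 v).sub_const t
  have a2 : HasDerivAt (fun v : ℝ => Real.sqrt (v ^ 2 - t)) (v / r) v := by
    have := a1.sqrt hr0.ne'
    convert! this using 1
    rw [← hr]
    field_simp
  have a3 : HasDerivAt (fun v : ℝ => Real.log (v + Real.sqrt (v ^ 2 - t))) (1 / r) v := by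
    have hne : v + Real.sqrt (v ^ 2 - t) ≠ 0 := by rw [← hr]; positivity
    have h0 : HasDerivAt (fun v : ℝ => v + Real.sqrt (v ^ 2 - t)) (1 + v / r) v := (hasDerivAt_id v).add a2
    have h := h0.log hne
    convert! h using 1
    rw [← hr]
    field_simp
    try ring
  have a4 : HasDerivAt (fun v : ℝ => v * Real.sqrt (v ^ 2 - t)) (1 * r + v * (v / r)) v :=
    (hasDerivAt_id v).mul a2
  have a5 : HasDerivAt (fun v : ℝ => v * (2 * v ^ 2 - t)) (6 * v ^ 2 - t) v := by
    have h := (hasDerivAt_id v).mul (((hasDerivAt_pow 2 v).const_mul 2).sub_const t)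
    convert! h using 1
    simp
    ring
  have a6 : HasDerivAt (fun v : ℝ => v * (2 * v ^ 2 - t) * Real.sqrt (v ^ 2 - t))
      ((6 * v ^ 2 - t) * r + v * (2 * v ^ 2 - t) * (v / r)) v := a5.mul a2
  have a7 := (((a4.sub (a3.const_mul t)).const_mul (1 - c)).div_const 2).sub
    ((a6.sub (a3.const_mul (t ^ 2))).div_const 4)
  unfold PP
  convert! a7 using 1
  unfold gi
  rw [← hr]
  have hrne := hrp.ne'
  field_simp
  have ht : t = v ^ 2 - r ^ 2 := by linarith
  rw [ht]
  ring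

lemma PP_contOn {t : ℝ} (c : ℝ) (h0 : 0 < t) : ContinuousOn (PP t c) (Set.Icc (Real.sqrt t) 1) := by
  have hs : 0 < Real.sqrt t := Real.sqrt_pos.mpr h0
  have hlog : ContinuousOn (fun v : ℝ => Real.log (v + Real.sqrt (v ^ 2 - t))) (Set.Icc (Real.sqrt t) 1) := by
    apply ContinuousOn.log
    · fun_prop
    · intro v hv
      have h1 : 0 < v := lt_of_lt_of_le hs hv.1
      have := Real.sqrt_nonneg (v ^ 2 - t)
      linarith
  unfold PP
  fun_prop

noncomputable def LL (t : ℝ) : ℝ := Real.log ((1 + Real.sqrt (1 - t)) / Real.sqrt t)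

lemma Gam_one {t : ℝ} (c : ℝ) (h0 : 0 < t) (h1 : t < 1) :
    4 * Gam t c 1 = Real.sqrt (1 - t) * (t - 2 * c) - t * (2 - 2 * c - t) * LL t := by
  have hs : 0 < Real.sqrt t := Real.sqrt_pos.mpr h0
  have hs2 : Real.sqrt t ^ 2 = t := Real.sq_sqrt h0.le
  have hs1 : Real.sqrt t < 1 := by rw [Real.sqrt_lt' one_pos]; simpa using h1
  have e1 : Gam t c 1 = (∫ v in (0 : ℝ)..(Real.sqrt t), gi t c v) + ∫ v in (Real.sqrt t)..(1 : ℝ), gi t c v := by
    unfold Gam
    exact (intervalIntegral.integral_add_adjacent_intervals (gi_int t c _ _) (gi_int t c _ _)).symm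
  have e2 : (∫ v in (0 : ℝ)..(Real.sqrt t), gi t c v) = 0 := by
    have : (∫ v in (0 : ℝ)..(Real.sqrt t), gi t c v) = ∫ v in (0 : ℝ)..(Real.sqrt t), (0 : ℝ) := by
      apply intervalIntegral.integral_congr
      intro v hv
      rw [Set.uIcc_of_le hs.le] at hv
      unfold gi
      simp only
      rw [Real.sqrt_eq_zero_of_nonpos (by nlinarith [hv.1, hv.2]), mul_zero]
    rw [this]; simp
  have e3 : ∫ v in (Real.sqrt t)..(1 : ℝ), gi t c v = PP t c 1 - PP t c (Real.sqrt t) := by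
    apply intervalIntegral.integral_eq_sub_of_hasDerivAt_of_le hs1.le (PP_contOn c h0)
    · intro v hv
      apply PP_hasDeriv c (lt_trans hs hv.1)
      nlinarith [hv.1, hv.2]
    · exact gi_int t c _ _
  have e4 : LL t = Real.log (1 + Real.sqrt (1 - t)) - Real.log (Real.sqrt t) := by
    unfold LL
    rw [Real.log_div (by have := Real.sqrt_nonneg (1 - t); positivity) hs.ne']
  rw [e1, e2, e3, e4]
  unfold PP
  rw [hs2, sub_self, Real.sqrt_zero]
  norm_num
  ring

/-- primitive of `JJ` -/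
noncomputable def QQ (t c θ : ℝ) : ℝ := -16 * Gam t c (Real.sin (θ / 2))

lemma QQ_hasDeriv (t c θ : ℝ) : HasDerivAt (QQ t c) (JJ t c θ) θ := by
  have a1 : HasDerivAt (fun θ : ℝ => Real.sin (θ / 2)) (Real.cos (θ / 2) * (1 / 2)) θ :=
    ((hasDerivAt_id θ).div_const 2).sin
  have a2 := ((Gam_hasDeriv t c (Real.sin (θ / 2))).comp θ a1).const_mul (-16)
  unfold QQ
  convert! a2 using 1
  unfold JJ gi
  have h : Real.cos θ = 1 - 2 * Real.sin (θ / 2) ^ 2 := by
    have h3 := Real.cos_two_mul' (θ / 2)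
    have h4 := Real.sin_sq_add_cos_sq (θ / 2)
    rw [show 2 * (θ / 2) = θ by ring] at h3
    linarith
  rw [h]
  ring

lemma QQ_nonpos {t c θ : ℝ} (h1 : 0 ≤ Gam t c 1) (hθ0 : 0 ≤ θ) (hθ1 : θ ≤ 2 * Real.pi) : QQ t c θ ≤ 0 := by
  unfold QQ
  have := Gam_nonneg h1 (Real.sin_nonneg_of_nonneg_of_le_pi (x := θ / 2) (by linarith) (by linarith))
    (Real.sin_le_one _)
  linarith

lemma QQ_zero (t c : ℝ) : QQ t c 0 = 0 := by
  unfold QQ; rw [zero_div, Real.sin_zero, Gam_zero]; ring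

lemma QQ_two_pi (t c : ℝ) : QQ t c (2 * Real.pi) = 0 := by
  unfold QQ
  rw [show 2 * Real.pi / 2 = Real.pi by ring, Real.sin_pi, Gam_zero]; ring

lemma JJ_cont (t c : ℝ) : Continuous (JJ t c) := by unfold JJ; fun_prop

lemma RR_cont (t c : ℝ) : Continuous (RR t c) := by unfold RR; fun_prop

lemma QQ_cont (t c : ℝ) : Continuous (QQ t c) :=
  continuous_iff_continuousAt.mpr fun θ => (QQ_hasDeriv t c θ).continuousAt

end Pool.Agent.Helper202.Cert
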