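import Mathlib

set_option autoImplicit false

namespace Pool.Agent.Helper202.Geom

open Complex Filter Topology Metric Set

/-- A holomorphic injective function on an open set has non-vanishing derivative. -/
lemma deriv_ne_zero_of_injOn {f : ℂ → ℂ} {U : Set ℂ} (hU : IsOpen U) (hf : DifferentiableOn ℂ f U)
    (hinj : Set.InjOn f U) {z₀ : ℂ} (hz : z₀ ∈ U) : deriv f z₀ ≠ 0 := by
  intro h0
  have hfa : AnalyticAt ℂ f z₀ := hf.analyticAt (hU.mem_nhds hz)
  have hFa : AnalyticAt ℂ (fun z => f z - f z₀) z₀ := hfa.sub analyticAt_const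
  have hne : ¬ ∀ᶠ z in 𝓝 z₀, f z - f z₀ = 0 := by
    intro h
    have h1 : ∀ᶠ z in 𝓝[≠] z₀, f z - f z₀ = 0 ∧ z ∈ U ∧ z ≠ z₀ := by
      filter_upwards [h.filter_mono nhdsWithin_le_nhds,
        (hU.mem_nhds hz |> fun h => mem_nhdsWithin_of_mem_nhds h),
        self_mem_nhdsWithin] with z h1 h2 h3
      exact ⟨h1, h2, h3⟩
    obtain ⟨z, hz1, hz2, hz3⟩ := h1.exists
    exact hz3 (hinj hz2 hz (sub_eq_zero.mp hz1))
  obtain ⟨n, g, hga, hg0, hgeq⟩ := hFa.exists_eventuallyEq_pow_smul_nonzero_iff.mpr hne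
  have hn0 : n ≠ 0 := by
    rintro rfl
    have := hgeq.self_of_nhds
    simp at this
    exact hg0 this.symm
  have hn1 : n ≠ 1 := by
    rintro rfl
    have h1 : HasDerivAt (fun z => (z - z₀) ^ 1 • g z) (g z₀) z₀ := by
      have h2 := ((hasDerivAt_id z₀).sub_const z₀).mul hga.differentiableAt.hasDerivAt
      simpa using! h2
    have h3 : HasDerivAt (fun z => f z - f z₀) (g z₀) z₀ := h1.congr_of_eventuallyEq hgeq
    have h4 : HasDerivAt f (g z₀) z₀ := by simpa using h3.add_const (f z₀)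
    rw [h4.deriv] at h0
    exact hg0 h0
  obtain ⟨c, hc⟩ := IsAlgClosed.exists_pow_nat_eq (g z₀) (Nat.pos_of_ne_zero hn0)
  have hc0 : c ≠ 0 := by
    rintro rfl
    rw [zero_pow hn0] at hc
    exact hg0 hc.symm
  set h : ℂ → ℂ := fun z => c * (g z / g z₀) ^ (1 / (n : ℂ)) with hh
  have hslit : g z₀ / g z₀ ∈ Complex.slitPlane := by rw [div_self hg0]; exact Complex.one_mem_slitPlane
  have hha : AnalyticAt ℂ h z₀ := by
    apply analyticAt_const.mul
    exact (hga.div analyticAt_const hg0).cpow analyticAt_const hslit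
  have hnC : (n : ℂ) ≠ 0 := by exact_mod_cast hn0
  have hhn : ∀ z, h z ^ n = g z := by
    intro z
    rw [hh]
    simp only
    rw [mul_pow, hc, ← Complex.cpow_mul_nat]
    rw [one_div, inv_mul_cancel₀ hnC, Complex.cpow_one]
    field_simp
  have hh0 : h z₀ = c := by
    rw [hh]; simp [div_self hg0]
  set φ : ℂ → ℂ := fun z => (z - z₀) * h z with hφ
  have hφd : HasStrictDerivAt φ c z₀ := by
    have h1 : HasStrictDerivAt h (deriv h z₀) z₀ := hha.hasStrictDerivAt
    have h2 : HasStrictDerivAt (fun z : ℂ => z - z₀) 1 z₀ := (hasStrictDerivAt_id z₀).sub_const z₀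
    have h3 := h2.mul h1
    rw [← hh0]
    simpa using! h3
  have hmap : map φ (𝓝 z₀) = 𝓝 0 := by
    have := hφd.map_nhds_eq hc0
    rw [this]
    congr 1
    rw [hφ]; simp
  have hV : ∀ᶠ z in 𝓝 z₀, z ∈ U ∧ f z - f z₀ = φ z ^ n := by
    filter_upwards [hU.mem_nhds hz, hgeq] with z h1 h2
    refine ⟨h1, ?_⟩
    rw [h2, hφ]
    simp only
    rw [mul_pow, hhn, smul_eq_mul]
  obtain ⟨V, hVm, hV2⟩ := hV.exists_mem
  have himg : φ '' V ∈ 𝓝 (0 : ℂ) := by
    rw [← hmap]
    exact image_mem_map hVm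
  set ζ : ℂ := Complex.exp (2 * Real.pi * I / n) with hζ
  have hprim : IsPrimitiveRoot ζ n := Complex.isPrimitiveRoot_exp n hn0
  have hζ1 : ζ ≠ 1 := hprim.ne_one (by omega)
  have hζn : ζ ^ n = 1 := hprim.pow_eq_one
  have hcont : Tendsto (fun w : ℂ => ζ * w) (𝓝 0) (𝓝 0) := by
    have : Continuous (fun w : ℂ => ζ * w) := by fun_prop
    simpa using this.tendsto 0
  have hboth : ∀ᶠ w in 𝓝[≠] (0 : ℂ), w ∈ φ '' V ∧ ζ * w ∈ φ '' V ∧ w ≠ 0 := by
    filter_upwards [mem_nhdsWithin_of_mem_nhds himg, mem_nhdsWithin_of_mem_nhds (hcont himg),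
      self_mem_nhdsWithin] with w h1 h2 h3
    exact ⟨h1, h2, h3⟩
  obtain ⟨w, ⟨z1, hz1, hw1⟩, ⟨z2, hz2, hw2⟩, hw0⟩ := hboth.exists
  have e1 := (hV2 z1 hz1).2
  have e2 := (hV2 z2 hz2).2
  rw [hw1] at e1
  rw [hw2, mul_pow, hζn, one_mul] at e2
  have e3 : f z1 = f z2 := by
    have : f z1 - f z₀ = f z2 - f z₀ := by rw [e1, e2]
    linear_combination this
  have e4 := hinj (hV2 z1 hz1).1 (hV2 z2 hz2).1 e3
  rw [← e4, hw1] at hw2
  apply hζ1
  have : (ζ - 1) * w = 0 := by linear_combination -hw2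
  rcases mul_eq_zero.mp this with h1 | h1
  · linear_combination h1
  · exact absurd h1 hw0

section Star

variable {f : ℂ → ℂ} (hd : DifferentiableOn ℂ f (ball 0 1)) (hinj : Set.InjOn f (ball 0 1))
  (h0 : f 0 = 0)

include hd hinj in
lemma inv_continuousAt {y : ℂ} (hy : y ∈ f '' ball 0 1) :
    ContinuousAt (Function.invFunOn f (ball 0 1)) y := by
  have hopen : ∀ s ⊆ ball (0 : ℂ) 1, IsOpen s → IsOpen (f '' s) := by
    have han : AnalyticOnNhd ℂ f (ball 0 1) := hd.analyticOnNhd isOpen_ball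
    rcases han.is_constant_or_isOpen (convex_ball (0 : ℂ) 1).isPreconnected with ⟨w, hw⟩ | h
    · exfalso
      have h1 : f 0 = f (1 / 2) := by
        rw [hw 0 (by simp), hw (1 / 2) (by simp; norm_num)]
      have h2 := hinj (by simp) (by simp; norm_num) h1
      norm_num at h2
    · exact h
  rw [ContinuousAt, tendsto_def]
  intro s hs
  have hgy : Function.invFunOn f (ball 0 1) y ∈ ball (0 : ℂ) 1 := Function.invFunOn_mem hy
  obtain ⟨t, hts, hto, hyt⟩ := _root_.mem_nhds_iff.mp (inter_mem hs (isOpen_ball.mem_nhds hgy))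
  have h1 : IsOpen (f '' t) := hopen t (fun x hx => (hts hx).2) hto
  have h2 : y ∈ f '' t := ⟨_, hyt, Function.invFunOn_eq hy⟩
  refine mem_of_superset (h1.mem_nhds h2) ?_
  rintro _ ⟨x, hx, rfl⟩
  have hxb : x ∈ ball (0 : ℂ) 1 := (hts hx).2
  have h3 : Function.invFunOn f (ball 0 1) (f x) = x := hinj.leftInvOn_invFunOn hxb
  rw [mem_preimage, h3]
  exact (hts hx).1

include hd hinj in
lemma inv_hasDerivAt {y : ℂ} (hy : y ∈ f '' ball 0 1) :
    HasDerivAt (Function.invFunOn f (ball 0 1))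
      (deriv f (Function.invFunOn f (ball 0 1) y))⁻¹ y := by
  have hgy : Function.invFunOn f (ball 0 1) y ∈ ball (0 : ℂ) 1 := Function.invFunOn_mem hy
  have hopen : IsOpen (f '' ball 0 1) := by
    have han : AnalyticOnNhd ℂ f (ball 0 1) := hd.analyticOnNhd isOpen_ball
    rcases han.is_constant_or_isOpen (convex_ball (0 : ℂ) 1).isPreconnected with ⟨w, hw⟩ | h
    · exfalso
      have h1 : f 0 = f (1 / 2) := by
        rw [hw 0 (by simp), hw (1 / 2) (by simp; norm_num)]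
      have h2 := hinj (by simp) (by simp; norm_num) h1
      norm_num at h2
    · exact h _ subset_rfl isOpen_ball
  apply HasDerivAt.of_local_left_inverse (inv_continuousAt hd hinj hy)
  · exact (hd.differentiableAt (isOpen_ball.mem_nhds hgy)).hasDerivAt
  · exact deriv_ne_zero_of_injOn isOpen_ball hd hinj hgy
  · filter_upwards [hopen.mem_nhds hy] with w hw
    exact Function.invFunOn_eq hw

include hd hinj h0 in
lemma schwarz_star (hstar : ∀ w ∈ f '' ball 0 1, ∀ s : ℝ, 0 ≤ s → s ≤ 1 → (s : ℂ) * w ∈ f '' ball 0 1)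
    {z : ℂ} (hz : z ∈ ball (0 : ℂ) 1) {s : ℝ} (hs0 : 0 ≤ s) (hs1 : s ≤ 1) :
    ‖Function.invFunOn f (ball 0 1) (s * f z)‖ ≤ ‖z‖ := by
  set ω : ℂ → ℂ := fun z => Function.invFunOn f (ball 0 1) (s * f z) with hω
  have hmem : ∀ z ∈ ball (0 : ℂ) 1, (s : ℂ) * f z ∈ f '' ball 0 1 :=
    fun z hz => hstar _ (mem_image_of_mem f hz) s hs0 hs1
  have hωd : DifferentiableOn ℂ ω (ball 0 1) := by
    intro z hz
    have h1 := inv_hasDerivAt hd hinj (hmem z hz)
    have h2 : HasDerivAt (fun z => (s : ℂ) * f z) ((s : ℂ) * deriv f z) z :=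
      ((hd.differentiableAt (isOpen_ball.mem_nhds hz)).hasDerivAt).const_mul _
    exact (h1.comp z h2).differentiableAt.differentiableWithinAt
  have hωm : MapsTo ω (ball 0 1) (closedBall 0 1) := by
    intro z hz
    exact ball_subset_closedBall (Function.invFunOn_mem (hmem z hz))
  have hω0 : ω 0 = 0 := by
    rw [hω]
    simp only
    rw [h0, mul_zero]
    have : Function.invFunOn f (ball 0 1) (f 0) = 0 := hinj.leftInvOn_invFunOn (by simp)
    rwa [h0] at this
  exact Complex.norm_le_norm_of_mapsTo_ball hωd hωm hω0 (by simpa using hz)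

include hd hinj h0 in
lemma star_re_nonneg (hstar : ∀ w ∈ f '' ball 0 1, ∀ s : ℝ, 0 ≤ s → s ≤ 1 → (s : ℂ) * w ∈ f '' ball 0 1)
    {z : ℂ} (hz : z ∈ ball (0 : ℂ) 1) : 0 ≤ (z * deriv f z / f z).re := by
  by_cases hz0 : z = 0
  · subst hz0; simp
  set g := Function.invFunOn f (ball 0 1) with hg
  have hgf : g (f z) = z := hinj.leftInvOn_invFunOn hz
  have hdz : deriv f z ≠ 0 := deriv_ne_zero_of_injOn isOpen_ball hd hinj hz
  have hfz : f z ≠ 0 := by
    intro h
    apply hz0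
    exact hinj hz (by simp) (by rw [h, h0])
  have h1 : HasDerivAt g (deriv f z)⁻¹ (f z) := by
    have := inv_hasDerivAt hd hinj (mem_image_of_mem f hz)
    rw [← hg, hgf] at this
    exact this
  have h2 : HasDerivAt (fun s : ℝ => (s : ℂ) * f z) (f z) 1 := by
    have := (Complex.ofRealCLM.hasDerivAt (x := (1 : ℝ))).mul_const (f z)
    simpa using this
  have h3 : HasDerivAt (fun s : ℝ => g ((s : ℂ) * f z)) ((deriv f z)⁻¹ * f z) 1 := by
    have h1' : HasDerivAt g (deriv f z)⁻¹ ((fun s : ℝ => (s : ℂ) * f z) 1) := by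
      simpa using h1
    have := h1'.comp_of_eq (1 : ℝ) h2 rfl
    exact this
  have h4 := h3.norm_sq
  simp only [Complex.ofReal_one, one_mul, hgf] at h4
  have h5 : 0 ≤ 2 * inner ℝ z ((deriv f z)⁻¹ * f z) := by
    have h6 := (hasDerivAt_iff_tendsto_slope.mp h4).mono_left
      (nhdsWithin_mono (1 : ℝ) (fun x (hx : x < 1) => ne_of_lt hx) : 𝓝[<] (1 : ℝ) ≤ 𝓝[≠] 1)
    refine ge_of_tendsto h6 ?_
    have h7 : Ioo (0 : ℝ) 1 ∈ 𝓝[<] (1 : ℝ) := Ioo_mem_nhdsLT (by norm_num)
    filter_upwards [h7] with s hs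
    have h8 := schwarz_star hd hinj h0 hstar hz hs.1.le hs.2.le
    rw [slope_def_field]
    simp only [Complex.ofReal_one, one_mul, hgf]
    apply div_nonneg_of_nonpos
    · have h9 : ‖g (s * f z)‖ ^ 2 ≤ ‖z‖ ^ 2 := by gcongr
      linarith
    · linarith [hs.2]
  rw [Complex.inner] at h5
  have h6 : 0 ≤ (((starRingEnd ℂ) z) * ((deriv f z)⁻¹ * f z)).re := by
    rw [mul_comm ((starRingEnd ℂ) z)]; linarith
  -- pass to the reciprocal
  set w : ℂ := ((starRingEnd ℂ) z) * ((deriv f z)⁻¹ * f z) with hw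
  have hw0 : w ≠ 0 := by
    rw [hw]
    exact mul_ne_zero (by simpa using hz0) (mul_ne_zero (inv_ne_zero hdz) hfz)
  have h7 : z * deriv f z / f z = (Complex.normSq z : ℂ) * w⁻¹ := by
    rw [hw, Complex.normSq_eq_conj_mul_self]
    have : (starRingEnd ℂ) z ≠ 0 := by simpa using hz0
    field_simp
  rw [h7, Complex.re_ofReal_mul, Complex.inv_re]
  have h8 : 0 ≤ Complex.normSq z := Complex.normSq_nonneg _
  have h9 : 0 ≤ Complex.normSq w := Complex.normSq_nonneg _
  positivity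

end Star

end Pool.Agent.Helper202.Geom
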