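import Mathlib
import Pool.Agent.Helper202.Cert3

set_option autoImplicit false

namespace Pool.Agent.Helper202.Num

open Set Pool.Agent.Helper202.Cert

/-- validity of the certificate with parameters `(t, W)` -/
def Valid (t W : ℝ) : Prop := t * W * LL t ≤ Real.sqrt (1 - t) * (W - 1 + t)

lemma valid_mono {t W W' : ℝ} (h0 : 0 < t) (h1 : t < 1) (hW : 0 < W) (hWW : W ≤ W') (h : Valid t W) :
    Valid t W' := by
  unfold Valid at *
  have hu := Real.sqrt_nonneg (1 - t)
  set u := Real.sqrt (1 - t)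
  -- t * LL ≤ u * (1 - (1-t)/W) ≤ u * (1 - (1-t)/W')
  have h2 : t * LL t * W ≤ u * (W - 1 + t) := by linarith
  have h3 : t * LL t * W * W' ≤ u * (W - 1 + t) * W' := mul_le_mul_of_nonneg_right h2 (by linarith)
  have h4 : t * LL t * W' * W ≤ u * (W' - 1 + t) * W := by
    have : 0 ≤ u * ((1 - t) * (W' - W)) := mul_nonneg hu (mul_nonneg (by linarith) (by linarith))
    nlinarith
  have h5 : t * LL t * W' ≤ u * (W' - 1 + t) := le_of_mul_le_mul_right h4 hW
  linarith

/-- the line -/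
noncomputable def Wl (t : ℝ) : ℝ := 12395 / 10000 + 51 / 100 * (t - 10 / 33)

/-- the function whose positivity means validity along the line -/
noncomputable def hl (t : ℝ) : ℝ := Real.sqrt (1 - t) * (Wl t - 1 + t) / (t * Wl t) - LL t

lemma Wl_pos {t : ℝ} (ht : 0 ≤ t) : 0 < Wl t := by unfold Wl; linarith

lemma LL_hasDeriv {t : ℝ} (h0 : 0 < t) (h1 : t < 1) :
    HasDerivAt LL (-(1 / (2 * t * Real.sqrt (1 - t)))) t := by
  have hu0 : 0 < 1 - t := by linarith
  have hu : 0 < Real.sqrt (1 - t) := Real.sqrt_pos.mpr hu0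
  have hu2 : Real.sqrt (1 - t) ^ 2 = 1 - t := Real.sq_sqrt hu0.le
  have hs : 0 < Real.sqrt t := Real.sqrt_pos.mpr h0
  have hs2 : Real.sqrt t ^ 2 = t := Real.sq_sqrt h0.le
  have a1 : HasDerivAt (fun t : ℝ => Real.sqrt (1 - t)) (-1 / (2 * Real.sqrt (1 - t))) t := by
    have := ((hasDerivAt_id t).const_sub 1).sqrt hu0.ne'
    simpa using this
  have a2 : HasDerivAt (fun t : ℝ => 1 + Real.sqrt (1 - t)) (-1 / (2 * Real.sqrt (1 - t))) t :=
    a1.const_add 1
  have a3 := a2.div (Real.hasDerivAt_sqrt h0.ne') hs.ne'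
  have a4 := a3.log (by simp only [Pi.div_apply]; positivity)
  unfold LL
  convert! a4 using 1
  simp only [Pi.div_apply]
  set u := Real.sqrt (1 - t)
  set s := Real.sqrt t
  have ht : t = 1 - u ^ 2 := by linarith
  have hs3 : s ^ 2 = 1 - u ^ 2 := by linarith
  have h1u : 0 < 1 - u ^ 2 := by linarith
  rw [ht]
  field_simp
  rw [hs3]
  ring

lemma hl_hasDeriv {t : ℝ} (h0 : 0 < t) (h1 : t < 1) :
    HasDerivAt hl ((1 - t) * (2 * t * (1 - t) * (51 / 100) - Wl t * (2 * Wl t - 2 - t)) /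
      (2 * Real.sqrt (1 - t) * (t * Wl t) ^ 2)) t := by
  have hu0 : 0 < 1 - t := by linarith
  have hu : 0 < Real.sqrt (1 - t) := Real.sqrt_pos.mpr hu0
  have hu2 : Real.sqrt (1 - t) ^ 2 = 1 - t := Real.sq_sqrt hu0.le
  have hW := Wl_pos h0.le
  have a1 : HasDerivAt (fun t : ℝ => Real.sqrt (1 - t)) (-1 / (2 * Real.sqrt (1 - t))) t := by
    have := ((hasDerivAt_id t).const_sub 1).sqrt hu0.ne'
    simpa using this
  have a2 : HasDerivAt Wl (51 / 100) t := by
    unfold Wl
    have := (((hasDerivAt_id t).sub_const (10 / 33)).const_mul (51 / 100)).const_add (12395 / 10000)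
    simpa using this
  have a3 : HasDerivAt (fun t => Wl t - 1 + t) (51 / 100 + 1) t := (a2.sub_const 1).add (hasDerivAt_id t)
  have a4 : HasDerivAt (fun t => t * Wl t) (1 * Wl t + t * (51 / 100)) t := (hasDerivAt_id t).mul a2
  have a5 := ((a1.mul a3).div a4 (by positivity)).sub (LL_hasDeriv h0 h1)
  unfold hl
  convert! a5 using 1
  set u := Real.sqrt (1 - t)
  set w := Wl t
  have ht : t = 1 - u ^ 2 := by linarith
  simp only [Pi.mul_apply]
  have h1u : 0 < 1 - u ^ 2 := by linarith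
  have e : Real.sqrt (1 - t) = u := rfl
  rw [e]
  have e2 : Wl t = w := rfl
  rw [e2]
  rw [ht]
  field_simp
  ring

lemma hl_end : 0 ≤ hl (10 / 33) := by
  unfold hl
  have hu : (8348 / 10000 : ℝ) ≤ Real.sqrt (1 - 10 / 33) := by
    apply Real.le_sqrt_of_sq_le; norm_num
  have hu' : Real.sqrt (1 - 10 / 33) ≤ (83485 / 100000 : ℝ) := by
    rw [Real.sqrt_le_left (by norm_num)]; norm_num
  have hs : (55048 / 100000 : ℝ) ≤ Real.sqrt (10 / 33) := by
    apply Real.le_sqrt_of_sq_le; norm_num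
  have hL : LL (10 / 33) ≤ 12057 / 10000 := by
    unfold LL
    rw [Real.log_le_iff_le_exp (by positivity)]
    have h1 : (1 + Real.sqrt (1 - 10 / 33)) / Real.sqrt (10 / 33) ≤ 33333 / 10000 := by
      rw [div_le_iff₀ (by positivity)]
      nlinarith
    have h2 : Real.exp (12057 / 10000) = Real.exp 1 * Real.exp (2057 / 10000) := by
      rw [← Real.exp_add]; norm_num
    have h3 := Real.exp_one_gt_d9
    have h4 := Real.quadratic_le_exp_of_nonneg (x := 2057 / 10000) (by norm_num)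
    rw [h2]
    have h5 : (1 + 2057 / 10000 + (2057 / 10000 : ℝ) ^ 2 / 2) * 2.7182818283 ≤ Real.exp 1 * Real.exp (2057 / 10000) := by
      nlinarith [Real.exp_pos 1, Real.exp_pos (2057 / 10000 : ℝ)]
    have h6 : (33333 / 10000 : ℝ) ≤ (1 + 2057 / 10000 + (2057 / 10000 : ℝ) ^ 2 / 2) * 2.7182818283 := by norm_num
    linarith
  have hW : Wl (10 / 33) = 12395 / 10000 := by unfold Wl; norm_num
  rw [hW, sub_nonneg]
  refine hL.trans ?_
  rw [le_div_iff₀ (by norm_num)]
  nlinarith

lemma hl_nonneg {t : ℝ} (ht : 11 / 100 ≤ t) (ht1 : t ≤ 10 / 33) : 0 ≤ hl t := by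
  have hanti : AntitoneOn hl (Icc (11 / 100) (10 / 33)) := by
    apply antitoneOn_of_deriv_nonpos (convex_Icc _ _)
    · intro t ht
      exact (hl_hasDeriv (by linarith [ht.1]) (by linarith [ht.2])).continuousAt.continuousWithinAt
    · intro t ht
      rw [interior_Icc] at ht
      exact (hl_hasDeriv (by linarith [ht.1]) (by linarith [ht.2])).differentiableAt.differentiableWithinAt
    · intro t ht
      rw [interior_Icc] at ht
      rw [(hl_hasDeriv (by linarith [ht.1]) (by linarith [ht.2])).deriv]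
      apply div_nonpos_of_nonpos_of_nonneg
      · apply mul_nonpos_of_nonneg_of_nonpos
        · linarith [ht.2]
        · unfold Wl
          nlinarith [ht.1, ht.2]
      · positivity
  exact hl_end.trans (hanti ⟨ht, ht1⟩ ⟨by norm_num, le_refl _⟩ ht1)

lemma valid_line {t : ℝ} (ht : 11 / 100 ≤ t) (ht1 : t ≤ 10 / 33) : Valid t (Wl t) := by
  have h := hl_nonneg ht ht1
  unfold hl at h
  unfold Valid
  have hW := Wl_pos (t := t) (by linarith)
  rw [sub_nonneg, le_div_iff₀ (by have : 0 < t := by linarith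
                                  positivity)] at h
  linarith

lemma valid_small : Valid (1 / 25) (107 / 100) := by
  unfold Valid
  have hu : (979 / 1000 : ℝ) ≤ Real.sqrt (1 - 1 / 25) := by
    apply Real.le_sqrt_of_sq_le; norm_num
  have hu' : Real.sqrt (1 - 1 / 25) ≤ 1 := by
    rw [Real.sqrt_le_left (by norm_num)]; norm_num
  have hs : Real.sqrt (1 / 25) = 1 / 5 := by
    rw [show (1 / 25 : ℝ) = (1 / 5) ^ 2 by norm_num]
    exact Real.sqrt_sq (by norm_num)
  have hL : LL (1 / 25) ≤ 5 / 2 := by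
    unfold LL
    rw [Real.log_le_iff_le_exp (by positivity), hs]
    have h2 : Real.exp (5 / 2) = Real.exp 1 * Real.exp 1 * Real.exp (1 / 2) := by
      rw [← Real.exp_add, ← Real.exp_add]; norm_num
    have h3 := Real.exp_one_gt_d9
    have h4 := Real.add_one_le_exp (1 / 2)
    rw [h2]
    have h5 : (7 : ℝ) ≤ Real.exp 1 * Real.exp 1 := by nlinarith
    have h6 : (7 : ℝ) * (3 / 2) ≤ Real.exp 1 * Real.exp 1 * Real.exp (1 / 2) := by nlinarith
    rw [div_le_iff₀ (by norm_num)]
    linarith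
  nlinarith

/-- Padé bound for the logarithm -/
lemma log_pade {y : ℝ} (hy : 1 ≤ y) : 3 * (y ^ 2 - 1) / (y ^ 2 + 4 * y + 1) ≤ Real.log y := by
  have hd : ∀ y : ℝ, 0 < y → HasDerivAt (fun y => Real.log y - 3 * (y ^ 2 - 1) / (y ^ 2 + 4 * y + 1))
      ((y - 1) ^ 4 / (y * (y ^ 2 + 4 * y + 1) ^ 2)) y := by
    intro y hy
    have a1 := Real.hasDerivAt_log hy.ne'
    have a2 : HasDerivAt (fun y : ℝ => 3 * (y ^ 2 - 1)) (3 * (2 * y)) y := by
      have := ((hasDerivAt_pow 2 y).sub_const 1).const_mul 3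
      simpa using this
    have a3 : HasDerivAt (fun y : ℝ => y ^ 2 + 4 * y + 1) (2 * y + 4) y := by
      have := (((hasDerivAt_pow 2 y).add ((hasDerivAt_id y).const_mul 4))).add_const 1
      simpa using! this
    have a4 := a1.sub (a2.div a3 (by positivity))
    convert! a4 using 1
    field_simp
    ring
  have hmono : MonotoneOn (fun y => Real.log y - 3 * (y ^ 2 - 1) / (y ^ 2 + 4 * y + 1)) (Ici 1) := by
    apply monotoneOn_of_deriv_nonneg (convex_Ici _)
    · intro z hz
      exact (hd z (lt_of_lt_of_le one_pos hz)).continuousAt.continuousWithinAt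
    · intro z hz
      rw [interior_Ici] at hz
      exact (hd z (lt_trans one_pos hz)).differentiableAt.differentiableWithinAt
    · intro z hz
      rw [interior_Ici] at hz
      rw [(hd z (lt_trans one_pos hz)).deriv]
      have : 0 < z := lt_trans one_pos hz
      positivity
  have := hmono (Set.mem_Ici.mpr le_rfl) (Set.mem_Ici.mpr hy) hy
  simp at this
  linarith

lemma quartic_pos {t : ℝ} (ht : 11 / 100 ≤ t) (ht1 : t ≤ 10 / 33) :
    0 ≤ 1 / 2 * (4 - 5 * t - 2 * Wl t) ^ 2 * ((10 / 33) ^ 2 + 4 * (10 / 33) * t + t ^ 2) +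
      12 * t * Wl t * ((10 / 33) ^ 2 - t ^ 2) -
      (10 / 33 - t) * (8 - 5 * (10 / 33 + t)) * ((10 / 33) ^ 2 + 4 * (10 / 33) * t + t ^ 2) := by
  have e : 1 / 2 * (4 - 5 * t - 2 * Wl t) ^ 2 * ((10 / 33) ^ 2 + 4 * (10 / 33) * t + t ^ 2) +
      12 * t * Wl t * ((10 / 33) ^ 2 - t ^ 2) -
      (10 / 33 - t) * (8 - 5 * (10 / 33 + t)) * ((10 / 33) ^ 2 + 4 * (10 / 33) * t + t ^ 2) =
      1495101486582919 / 205810601701250 * (10 / 33 - t) ^ 4 +
      1877212982726617 / 41162120340250 * (10 / 33 - t) ^ 3 * (t - 11 / 100) +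
      1552903462894681 / 32929696272200 * (10 / 33 - t) ^ 2 * (t - 11 / 100) ^ 2 +
      300291743610 / 164648481361 * (10 / 33 - t) * (t - 11 / 100) ^ 3 +
      1117470000 / 164648481361 * (t - 11 / 100) ^ 4 := by
    unfold Wl
    ring
  rw [e]
  have h1 : 0 ≤ 10 / 33 - t := by linarith
  have h2 : 0 ≤ t - 11 / 100 := by linarith
  positivity

/-- the key estimate for the middle range -/
lemma delta_mid {m t : ℝ} (ht : 11 / 100 ≤ t) (htm : t ≤ m) (hm : m ≤ 10 / 33) :
    4 * t * Wl t * Real.log (t / m) ≤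
      1 / 2 * (4 - 5 * t - 2 * Wl t) ^ 2 - (m - t) * (8 - 5 * (m + t)) := by
  have ht0 : 0 < t := by linarith
  have hm0 : 0 < m := by linarith
  have hW := Wl_pos ht0.le
  have hW2 : Wl t ≤ 12395 / 10000 := by unfold Wl; linarith
  have e1 : Real.log (t / m) = -Real.log ((10 / 33) / t) + Real.log ((10 / 33) / m) := by
    rw [Real.log_div ht0.ne' hm0.ne', Real.log_div (by norm_num) ht0.ne', Real.log_div (by norm_num) hm0.ne']
    ring
  have h1 := log_pade (y := (10 / 33) / t) (by rw [le_div_iff₀ ht0]; linarith)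
  have h2 : Real.log ((10 / 33) / m) ≤ (10 / 33) / m - 1 := Real.log_le_sub_one_of_pos (by positivity)
  have h3 : 3 * ((10 / 33 / t) ^ 2 - 1) / ((10 / 33 / t) ^ 2 + 4 * (10 / 33 / t) + 1) =
      3 * ((10 / 33) ^ 2 - t ^ 2) / ((10 / 33) ^ 2 + 4 * (10 / 33) * t + t ^ 2) := by
    field_simp
  rw [h3] at h1
  set D := ((10 / 33) ^ 2 + 4 * (10 / 33) * t + t ^ 2 : ℝ) with hD
  have hDpos : 0 < D := by positivity
  have hq := quartic_pos ht (htm.trans hm)
  rw [← hD] at hq
  -- 4 t W log(m0/t) ≥ (m0-t)(8-5(m0+t)) - 1/2 ()^2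
  have h4 : (10 / 33 - t) * (8 - 5 * (10 / 33 + t)) - 1 / 2 * (4 - 5 * t - 2 * Wl t) ^ 2 ≤
      4 * t * Wl t * Real.log ((10 / 33) / t) := by
    have h5 : (10 / 33 - t) * (8 - 5 * (10 / 33 + t)) - 1 / 2 * (4 - 5 * t - 2 * Wl t) ^ 2 ≤
        4 * t * Wl t * (3 * ((10 / 33) ^ 2 - t ^ 2) / D) := by
      rw [mul_div_assoc', le_div_iff₀ hDpos]
      linarith
    refine h5.trans ?_
    apply mul_le_mul_of_nonneg_left h1
    positivity
  have h6 : 4 * t * Wl t * Real.log ((10 / 33) / m) ≤ (10 / 33 - m) * (8 - 5 * (10 / 33 + m)) := by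
    have h7 : 4 * t * Wl t * Real.log ((10 / 33) / m) ≤ 4 * t * Wl t * ((10 / 33) / m - 1) := by
      apply mul_le_mul_of_nonneg_left h2
      positivity
    refine h7.trans ?_
    have h8 : 4 * t * Wl t * ((10 / 33) / m - 1) = (t / m) * (4 * Wl t * (10 / 33 - m)) := by
      field_simp
    rw [h8]
    have h9 : t / m ≤ 1 := by rw [div_le_one hm0]; exact htm
    have h10 : 0 ≤ 4 * Wl t * (10 / 33 - m) := by
      have : 0 ≤ 10 / 33 - m := by linarith
      positivity
    have h11 : (t / m) * (4 * Wl t * (10 / 33 - m)) ≤ 1 * (4 * Wl t * (10 / 33 - m)) :=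
      mul_le_mul_of_nonneg_right h9 h10
    refine h11.trans ?_
    rw [one_mul]
    nlinarith
  rw [e1]
  nlinarith

lemma delta_small {m : ℝ} (hm0 : 1 / 5 ≤ m) (hm : m ≤ 10 / 33) :
    4 * (1 / 25) * (107 / 100) * Real.log ((1 / 25) / m) ≤
      1 / 2 * (4 - 5 * (1 / 25) - 2 * (107 / 100)) ^ 2 - (m - 1 / 25) * (8 - 5 * (m + 1 / 25)) - 648 / 10000 := by
  have hmp : 0 < m := by linarith
  have e1 : Real.log ((1 / 25) / m) = -Real.log ((10 / 33) / (1 / 25)) + Real.log ((10 / 33) / m) := by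
    rw [← Real.log_inv, ← Real.log_mul (by norm_num) (by positivity)]
    congr 1
    field_simp
    try norm_num
  have h2 : Real.log ((10 / 33) / m) ≤ (10 / 33) / m - 1 := Real.log_le_sub_one_of_pos (by positivity)
  have h3 : 2 ≤ Real.log ((10 / 33) / (1 / 25)) := by
    rw [Real.le_log_iff_exp_le (by norm_num)]
    have : Real.exp 2 = Real.exp 1 * Real.exp 1 := by rw [← Real.exp_add]; norm_num
    rw [this]
    have := Real.exp_one_lt_d9
    have h0 := Real.exp_pos 1
    nlinarith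
  have h4 : (10 / 33) / m - 1 ≤ 5 * (10 / 33 - m) := by
    rw [div_sub_one hmp.ne', div_le_iff₀ hmp]
    nlinarith
  rw [e1]
  nlinarith

/-- the numerical heart: the certificates imply the sharp bound -/
theorem num_main {m x y : ℝ} (hm : 1 / 5 ≤ m) (hm1 : m ≤ 10 / 33) (hx : 0 ≤ x)
    (H : ∀ t W : ℝ, 0 < t → t < 1 → 3 / 2 * t ≤ W → Valid t W →
      y ≤ (1 - t) * (1 - 3 * t) + 4 * (W - 1 + 3 / 2 * t) * (1 - t - x) + 4 * t * W * Real.log (t / m)) :
    2 * x ^ 2 + y ≤ 3 - 8 * m + 5 * m ^ 2 := by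
  have hm0 : 0 < m := by linarith
  have hlogm : Real.log (m / m) = 0 := by rw [div_self hm0.ne', Real.log_one]
  have hWm : Wl m - 1 + 3 / 2 * m ≤ 1 - m := by unfold Wl; linarith
  have hWm2 : 3 / 2 * m ≤ Wl m := by unfold Wl; linarith
  have hVm := valid_line (t := m) (by linarith) hm1
  -- x ≤ 1 - m
  have hx1 : x ≤ 1 - m := by
    by_contra hcon
    push Not at hcon
    have hδ : 0 < x - (1 - m) := by linarith
    set W := Wl m + (|y| + 1 + |(1 - m) * (1 - 3 * m)|) / (x - (1 - m)) with hW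
    have hWW : Wl m ≤ W := by
      rw [hW]
      have : 0 ≤ (|y| + 1 + |(1 - m) * (1 - 3 * m)|) / (x - (1 - m)) := by positivity
      linarith
    have h1 := H m W hm0 (by linarith) (hWm2.trans hWW)
      (valid_mono hm0 (by linarith) (Wl_pos hm0.le) hWW hVm)
    rw [hlogm, mul_zero, add_zero] at h1
    have h2 : (W - Wl m) * (x - (1 - m)) = |y| + 1 + |(1 - m) * (1 - 3 * m)| := by
      rw [hW]; field_simp; ring
    have h3 := neg_abs_le y
    have h4 := le_abs_self ((1 - m) * (1 - 3 * m))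
    have h5 : 0 ≤ (Wl m - 1 + 3 / 2 * m) * (x - (1 - m)) := by
      apply mul_nonneg _ hδ.le
      unfold Wl; linarith
    nlinarith [abs_nonneg y, abs_nonneg ((1 - m) * (1 - 3 * m))]
  rcases le_or_gt x (31 / 100) with hxs | hxs
  · -- small x
    have h1 := H (1 / 25) (107 / 100) (by norm_num) (by norm_num) (by norm_num) valid_small
    have h2 := delta_small hm hm1
    nlinarith
  · rcases le_or_gt x (Wl m - 1 + 3 / 2 * m) with hxm | hxm
    · -- middle x : choose t with λ'(t) = x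
      obtain ⟨t, ht⟩ : ∃ t : ℝ, Wl t - 1 + 3 / 2 * t = x := by
        refine ⟨(x + 1 - 12395 / 10000 + 51 / 100 * (10 / 33)) / (201 / 100), ?_⟩
        unfold Wl
        ring
      have ht1 : 11 / 100 ≤ t := by unfold Wl at ht; linarith
      have htm : t ≤ m := by unfold Wl at ht hxm; linarith
      have h1 := H t (Wl t) (by linarith) (by linarith) (by unfold Wl; linarith)
        (valid_line ht1 (htm.trans hm1))
      have h2 := delta_mid ht1 htm hm1
      rw [ht] at h1
      have hx' : x = Wl t - 1 + 3 / 2 * t := ht.symm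
      have h3 : Wl t = x + 1 - 3 / 2 * t := by linarith
      rw [h3] at h1 h2
      nlinarith
    · have h1 := H m (Wl m) hm0 (by linarith) hWm2 hVm
      rw [hlogm, mul_zero, add_zero] at h1
      nlinarith

end Pool.Agent.Helper202.Num
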